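import Pool.Agent.Helper4.CV.Main
import Pool.Agent.Gen.TY.A.All
import Pool.Agent.Gen.TY.BA.All
import Pool.Agent.Gen.TY.E.All
import Pool.Agent.Gen.TY.F.All

/-!
MP_8ee768_co (project TH-Y'): every odd cover of the quadruples of a 13-set by blocks of size 5
has at least 158 blocks (theorem without hypotheses).
-/

set_option autoImplicit false

namespace Pool.Agent.Gen.TY.Final

/-- **no odd cover has at most 157 blocks** -/
theorem no_cover : ∀ B : Finset (Finset (Fin 13)),
    Pool.Agent.Helper89.CV.OddCover B → B.card ≤ 157 → False :=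
  Pool.Agent.Helper4.CV.main_of Pool.Agent.Gen.TY.A.all
    (Pool.Agent.Gen.TY.BA.all ⟨Pool.Agent.Helper4.CV.rowsC, Pool.Agent.Gen.TY.T0.countA,
      Pool.Agent.Gen.TY.T0.countB⟩)
    Pool.Agent.Gen.TY.E.all Pool.Agent.Gen.TY.F.stF_all

end Pool.Agent.Gen.TY.Final
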